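import Pool.Agent.R191.Met.FlowMain

/-!
# Adapted metrics for sectional-hyperbolic sets of flows

Let `M` be a smooth manifold (Hausdorff and `σ`-compact; modelled on the finite-dimensional space `E`
through the model with corners `I`) and `Φ` a flow on `M` which is jointly of class `C¹` in the time and the
point, for instance the flow of a `C¹` vector field on a closed manifold. Let `Λ` be a compact
sectional-hyperbolic set of `Φ`. Then there is a continuous Riemannian metric on `M` for which the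
domination, the contraction of `E` and the sectional expansion of `F` hold with constant `1`, for all
positive times and one rate `lam > 0`.

The norms `gnorm` (of a tangent vector), `gvol` (of an exterior product of tangent vectors) and the
notion `ContSplitting` of a continuous splitting are defined in `Pool/Agent/R191/Met/Defs.lean`, the notion
`IsC1Flow` of a jointly `C¹` flow in `Pool/Agent/R191/Met/Flow.lean`.

The proof takes an averaged metric for which `E` and `F` are orthogonal over `Λ` and replaces it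
successively by the fibrewise geometric mean of itself and its pullback by `Φ (T / 2 ^ j)`,
`j = 1, 2, ...`; the metrics obtained converge, and the limit is adapted for all positive times.
-/

set_option autoImplicit false

open Set Filter Topology Function Bundle Manifold
open scoped ContDiff
open Pool.Agent.R191.Met

namespace Pool.Agent.Results.MP_d49e10_an.AdaptedMetric

variable {E : Type*} [NormedAddCommGroup E] [NormedSpace ℝ E]
  {H : Type*} [TopologicalSpace H] {I : ModelWithCorners ℝ E H}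
  {M : Type*} [TopologicalSpace M] [ChartedSpace H M] [IsManifold I ∞ M]

/-- `Λ` is a compact set, invariant under the flow `Φ`, with a continuous `DΦ`-invariant splitting
`T_Λ M = Es ⊕ Fs` which is dominated, with `Es` uniformly contracted, and such that the flow expands the
`k`-dimensional volume in `Fs`, all this in the Riemannian metric `g₀`, with the constants `C` and `lam`.
For `k = 2` the last condition is the sectional expansion, and `Λ` is a sectional-hyperbolic set. The
domination `‖DΦ_t|E_x‖ ‖DΦ_{-t}|F_{Φ_t x}‖ ≤ C e^(-lam t)` is written out for vectors `v ∈ E_x` and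
`w ∈ F_x`, and the sectional expansion `|det (DΦ_t|_L)| ≥ C⁻¹ e^(lam t)` for vectors `v_i` of `F_x`. -/
structure IsSectionalHyperbolic
    (g₀ : ContMDiffRiemannianMetric I ∞ E (fun x : M => TangentSpace I x))
    (Φ : ℝ → M → M) (Λ : Set M) (Es Fs : ∀ x : M, Submodule ℝ (TangentSpace I x)) (k : ℕ) :
    Prop where
  isCompact : IsCompact Λ
  invariant : ∀ t, Φ t '' Λ = Λ
  splitting : ContSplitting Λ Es Fs
  invariant_E : ∀ t, ∀ x ∈ Λ, (Es x).map (mfderiv I I (Φ t) x).toLinearMap = Es (Φ t x)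
  invariant_F : ∀ t, ∀ x ∈ Λ, (Fs x).map (mfderiv I I (Φ t) x).toLinearMap = Fs (Φ t x)
  hyperbolic : ∃ C lam : ℝ, 1 ≤ C ∧ 0 < lam ∧ ∀ x ∈ Λ, ∀ t : ℝ, 0 < t →
    (∀ v ∈ Es x, ∀ w ∈ Fs x,
      gnorm g₀.inner (Φ t x) (mfderiv I I (Φ t) x v) * gnorm g₀.inner x w ≤
        C * Real.exp (-(lam * t)) *
          (gnorm g₀.inner x v * gnorm g₀.inner (Φ t x) (mfderiv I I (Φ t) x w))) ∧
    (∀ v ∈ Es x, gnorm g₀.inner (Φ t x) (mfderiv I I (Φ t) x v) ≤
      C * Real.exp (-(lam * t)) * gnorm g₀.inner x v) ∧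
    ∀ v : Fin k → TangentSpace I x, (∀ i, v i ∈ Fs x) →
      C⁻¹ * Real.exp (lam * t) * gvol g₀.inner x v ≤
        gvol g₀.inner (Φ t x) (fun i => mfderiv I I (Φ t) x (v i))

variable [FiniteDimensional ℝ E]

lemma sys {g₀ : ContMDiffRiemannianMetric I ∞ E (fun x : M => TangentSpace I x)}
    {Φ : ℝ → M → M} (hΦ : IsC1Flow I Φ) {Λ : Set M} {Es Fs : ∀ x : M, Submodule ℝ (TangentSpace I x)}
    {k : ℕ} (h : IsSectionalHyperbolic g₀ Φ Λ Es Fs k) (t : ℝ) : Sys Λ Es Fs (Φ t) := by
  refine ⟨hΦ.smooth t, fun x hx => ?_, fun x _ => ?_, fun x hx v hv => ?_, fun x hx v hv => ?_⟩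
  · rw [← h.invariant t]; exact mem_image_of_mem (Φ t) hx
  · have hd : MDifferentiableAt I I (Φ t) x := (hΦ.smooth t x).mdifferentiableAt (by simp)
    have hd' : MDifferentiableAt I I (Φ (-t)) (Φ t x) :=
      (hΦ.smooth (-t) (Φ t x)).mdifferentiableAt (by simp)
    have e : mfderiv I I (Φ (-t) ∘ Φ t) x = (mfderiv I I (Φ (-t)) (Φ t x)).comp (mfderiv I I (Φ t) x) :=
      mfderiv_comp x hd' hd
    have e2 : (Φ (-t) ∘ Φ t : M → M) = id := by
      funext y
      rw [comp_apply, ← hΦ.add, neg_add_cancel, hΦ.zero]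
      rfl
    rw [e2, mfderiv_id] at e
    intro v w hvw
    have h1 : v = (mfderiv I I (Φ (-t)) (Φ t x)) (mfderiv I I (Φ t) x v) := by
      have := congrArg (fun L : TangentSpace I x →L[ℝ] TangentSpace I x => L v) e
      exact this
    have h2 : w = (mfderiv I I (Φ (-t)) (Φ t x)) (mfderiv I I (Φ t) x w) := by
      have := congrArg (fun L : TangentSpace I x →L[ℝ] TangentSpace I x => L w) e
      exact this
    rw [h1, h2, hvw]
  · rw [← h.invariant_E t x hx]; exact ⟨v, hv, rfl⟩
  · rw [← h.invariant_F t x hx]; exact ⟨v, hv, rfl⟩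

/-- Every sectional-hyperbolic set (`k = 2`) admits an adapted metric: there are a continuous Riemannian
metric `g` on `M` and `lam > 0` such that, in the metric `g`, for all `x ∈ Λ` and all `t > 0`:
`‖DΦ_t v‖ ‖w‖ ≤ e^(-lam t) ‖v‖ ‖DΦ_t w‖` for `v ∈ E_x` and `w ∈ F_x`, `‖DΦ_t v‖ ≤ e^(-lam t) ‖v‖` for
`v ∈ E_x`, and `‖DΦ_t v₁ ∧ ⋯ ∧ DΦ_t v_k‖ ≥ e^(lam t) ‖v₁ ∧ ⋯ ∧ v_k‖` for `v₁, ..., v_k` in `F_x`. -/
theorem result [T2Space M] [SigmaCompactSpace M]
    (g₀ : ContMDiffRiemannianMetric I ∞ E (fun x : M => TangentSpace I x))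
    (Φ : ℝ → M → M) (hΦ : IsC1Flow I Φ) (Λ : Set M)
    (Es Fs : ∀ x : M, Submodule ℝ (TangentSpace I x)) (k : ℕ)
    (h : IsSectionalHyperbolic g₀ Φ Λ Es Fs k) :
    ∃ (g : ContinuousRiemannianMetric E (fun x : M => TangentSpace I x)) (lam : ℝ), 0 < lam ∧
      ∀ x ∈ Λ, ∀ t : ℝ, 0 < t →
        (∀ v ∈ Es x, ∀ w ∈ Fs x,
          gnorm g.inner (Φ t x) (mfderiv I I (Φ t) x v) * gnorm g.inner x w ≤
            Real.exp (-(lam * t)) *
              (gnorm g.inner x v * gnorm g.inner (Φ t x) (mfderiv I I (Φ t) x w))) ∧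
        (∀ v ∈ Es x, gnorm g.inner (Φ t x) (mfderiv I I (Φ t) x v) ≤
          Real.exp (-(lam * t)) * gnorm g.inner x v) ∧
        ∀ v : Fin k → TangentSpace I x, (∀ i, v i ∈ Fs x) →
          Real.exp (lam * t) * gvol g.inner x v ≤
            gvol g.inner (Φ t x) (fun i => mfderiv I I (Φ t) x (v i)) := by
  obtain ⟨C, lam, hC, hlam, hI⟩ := h.hyperbolic
  obtain ⟨g, l, hl, hg⟩ := exists_adapted_flow h.isCompact h.splitting hΦ (sys hΦ h) g₀ (k := k) hC hlam
    (fun x hx t ht => ⟨(hI x hx t ht).1, (hI x hx t ht).2.1, (hI x hx t ht).2.2⟩)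
  exact ⟨g, l, hl, fun x hx t ht => ⟨(hg x hx t ht.le).dom, (hg x hx t ht.le).con, (hg x hx t ht.le).vol⟩⟩

end Pool.Agent.Results.MP_d49e10_an.AdaptedMetric
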